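import Pool.Agent.helper99.WN.SpecA

/-!
# MP_5c1f29_al, row wn:SK: stackings exist
-/

set_option autoImplicit false

open Classical

namespace Pool.Agent.WN

/-- a word of one period determines the phase modulo `N` -/
theorem SK_inj {k : ℕ} {W : ℤ → Lt k} {N : ℕ} (hW : Wd W N) (i j : ℤ)
    (h : wd W i N = wd W j N) : (N : ℤ) ∣ i - j := by
  have hred : ∀ i : ℤ, FreeGroup.IsReduced ((List.range N).map fun t : ℕ => W (i + (t : ℤ))) := by
    intro i
    unfold FreeGroup.IsReduced
    rw [List.isChain_map, List.isChain_range]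
    intro m _ h1
    by_contra h2
    apply hW.red (i + (m : ℤ))
    have h3 : i + (m : ℤ) + 1 = i + ((m + 1 : ℕ) : ℤ) := by push_cast; ring
    rw [h3]
    unfold iv
    apply Prod.ext
    · exact h1.symm
    · dsimp only
      cases h4 : (W (i + (m : ℤ))).2 <;> cases h5 : (W (i + ((m + 1 : ℕ) : ℤ))).2 <;>
        simp_all
  have h1 : ((List.range N).map fun t : ℕ => W (i + (t : ℤ))) =
      ((List.range N).map fun t : ℕ => W (j + (t : ℤ))) := by
    rw [← (hred i).reduce_eq, ← (hred j).reduce_eq, ← FreeGroup.toWord_mk, ← FreeGroup.toWord_mk]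
    exact congrArg FreeGroup.toWord h
  rw [List.map_inj_left] at h1
  apply hW.pa
  intro t ht
  exact h1 t (List.mem_range.2 ht)

/-- SK: stackings exist -/
theorem SK (hBO : BO_stmt) : SK_stmt := by
  intro k W N hW
  obtain ⟨o, ho⟩ := hBO k
  have hlt : ∀ a b c : Fr k, o.lt a b ↔ o.lt (c⁻¹ * a * c) (c⁻¹ * b * c) := by
    intro a b c
    constructor
    · intro h
      exact (ho _ _ c (ho _ _ c⁻¹ h).1).2
    · intro h
      have h1 := (ho _ _ c⁻¹ (ho _ _ c h).1).2
      have e1 : ∀ x : Fr k, c * (c⁻¹ * x * c) * c⁻¹ = x := by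
        intro x; group
      rwa [e1, e1] at h1
  have hper : ∀ i j : ℤ, (N : ℤ) ∣ i - j → wd W i N = wd W j N := fun i j h => hW.wd_dvd h N
  set r : ℤ → ℤ := fun i =>
    (((Finset.range N).filter (fun j : ℕ => o.lt (wd W (j : ℤ) N) (wd W i N))).card : ℤ) with hr
  have hirr : ∀ a : Fr k, ¬ o.lt a a := fun a => @lt_irrefl _ o.toPreorder a
  have htr : ∀ a b c : Fr k, o.lt a b → o.lt b c → o.lt a c :=
    fun a b c => @lt_trans _ o.toPreorder a b c
  have htri : ∀ a b : Fr k, o.lt a b ∨ a = b ∨ o.lt b a := fun a b => @lt_trichotomy _ o a b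
  have hmono : ∀ i j : ℤ, o.lt (wd W i N) (wd W j N) → r i < r j := by
    intro i j hij
    rw [hr]
    dsimp only
    rw [Nat.cast_lt]
    apply Finset.card_lt_card
    rw [Finset.ssubset_iff_of_subset]
    · have hN : (0 : ℤ) < N := by exact_mod_cast hW.pos
      have h0 := Int.emod_nonneg i hN.ne'
      have h1 := Int.emod_lt_of_pos i hN
      have h2 : wd W ((i % N).toNat : ℤ) N = wd W i N := by
        apply hper
        rw [Int.toNat_of_nonneg h0]
        exact (Int.mod_modEq i N).symm.dvd
      refine ⟨(i % N).toNat, ?_, ?_⟩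
      · rw [Finset.mem_filter, Finset.mem_range, h2]
        exact ⟨by omega, hij⟩
      · rw [Finset.mem_filter, h2]
        intro h3
        exact hirr _ h3.2
    · intro q hq
      rw [Finset.mem_filter] at hq ⊢
      exact ⟨hq.1, htr _ _ _ hq.2 hij⟩
  have hiff : ∀ i j : ℤ, r i < r j ↔ o.lt (wd W i N) (wd W j N) := by
    intro i j
    refine ⟨fun h => ?_, hmono i j⟩
    rcases htri (wd W i N) (wd W j N) with h1 | h1 | h1
    · exact h1
    · exfalso
      have h2 : r i = r j := by
        rw [hr]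
        dsimp only
        rw [h1]
      omega
    · have := hmono j i h1
      omega
  refine ⟨r, ?_, ?_, ?_, ?_⟩
  · intro i
    rw [hr]
    dsimp only
    rw [hper (i + N) i ⟨1, by ring⟩]
  · intro i j hij
    apply SK_inj hW
    rcases htri (wd W i N) (wd W j N) with h1 | h1 | h1
    · have := hmono i j h1
      omega
    · exact h1
    · have := hmono j i h1
      omega
  · intro i j hij
    rw [hiff, hiff, hW.wd_shift i, hW.wd_shift j, hij]
    exact hlt _ _ _
  · intro i j hij
    have h1 : lt (W j) = (lt (W i))⁻¹ := by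
      rw [hij, lt_iv, inv_inv]
    have h2 : wd W j N = (lt (W i))⁻¹ * wd W (j + 1) N * lt (W i) := by
      rw [hW.wd_shift j, h1]
      group
    rw [hiff, hiff, hW.wd_shift i, h2]
    exact hlt _ _ _

end Pool.Agent.WN
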